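import Pool.Agent.N641.VB.Stm9
import Pool.Agent.N521.VB.RNB

set_option autoImplicit false

/-!
# Project VB (helper641), part RNE (helper941): rings with `x ^ m = x` of arbitrary characteristic
are bi-interpretable with Boolean algebras with ideals (adapted from part RNB of helper521)
-/

namespace Pool.Agent.N941.VB

open FirstOrder FirstOrder.Language
open Pool.Agent.N641.VB
open Pool.Agent.N521.VB (dcongr dnot dand dimp dre dex dall dfin deq dpar drel dfunc dconst dex1
  dall1 DT DT_var DT_par DT_op deqT BB inf_val bot_val le_val inf_bot_iff unionM ff ff_val r_mul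
  BiG finite_LR)

section Alg

variable {C : Type} {plus times : C → C → C → Prop} {zer one : Set C} {R : Type}
  [iR : CommRing R] {ev : C → R → R}

/-- membership in the ideal -/
def Q (ev : C → R → R) (c : C) (b : R) : Prop := ∃ x, b * ev c x = b

theorem loc (h : EvG plus times zer one ev) {b x y : R} (hb : b * b = b) (hxy : b * x = b * y) (c : C) :
    b * ev c x = b * ev c y := by
  have h1 := h.glue b x 0 c hb
  have h2 := h.glue b y 0 c hb
  rw [hxy] at h1
  rw [h1] at h2
  exact add_right_cancel h2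

theorem op_iff (h : EvG plus times zer one ev) (op : R → R → R) (ρ : C → C → C → Prop)
    (h1 : ∀ c d e x y, ρ c d e → ev c x * ev d y * ev e (op x y) = ev c x * ev d y)
    (h2 : ∀ c d x y, (∀ e, ¬ ρ c d e) → ev c x * ev d y = 0) (x y z : R) :
    op x y = z ↔ ∀ c d e, ρ c d e → ev c x * ev d y * ev e z = ev c x * ev d y := by
  constructor
  · rintro rfl c d e hr
    exact h1 c d e x y hr
  · intro H
    apply h.inj
    intro e
    rw [← sub_eq_zero]
    apply h.total x
    intro c
    apply h.total y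
    intro d
    by_cases hr : ∃ e', ρ c d e'
    · obtain ⟨e', he'⟩ := hr
      have k1 := h1 c d e' x y he'
      have k2 := H c d e' he'
      by_cases hee : e = e'
      · subst hee
        linear_combination k1 - k2
      · have o1 := h.orth e e' (op x y) hee
        have o2 := h.orth e e' z hee
        linear_combination (-(ev e (op x y))) * k1 + (ev c x * ev d y) * o1 + (ev e z) * k2 -
          (ev c x * ev d y) * o2
    · have k := h2 c d x y fun e' he' => hr ⟨e', he'⟩
      linear_combination (ev e (op x y) - ev e z) * k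

theorem mul_iff (h : EvG plus times zer one ev) (x y z : R) : x * y = z ↔ ∀ c d e : C,
    times c d e → ev c x * ev d y * ev e z = ev c x * ev d y :=
  op_iff h (fun x y => x * y) times
    (fun c d e x y he => h.mul c d e x y he)
    (fun c d x y hn => h.mul' c d x y hn) x y z

theorem add_iff' (h : EvG plus times zer one ev) (x y z : R) : x + y = z ↔ ∀ c d e : C,
    plus c d e → ev c x * ev d y * ev e z = ev c x * ev d y :=
  op_iff h (fun x y => x + y) plus
    (fun c d e x y he => h.add c d e x y he)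
    (fun c d x y hn => h.add' c d x y hn) x y z

theorem exist_g (h : EvG plus times zer one ev) [Finite (C)] (X : C → R)
    (hi : ∀ c, X c * X c = X c) (ho : ∀ c d, c ≠ d → X c * X d = 0)
    (ht : ∀ b, b * b = b → (∀ c, b * X c = 0) → b = 0) (hq : ∀ c, Q ev c (X c)) :
    ∃ y, ∀ c, ev c y = X c := by
  classical
  have := Fintype.ofFinite (C)
  choose Y hY using hq
  have hX : ∀ d, (∑ c, X c) * X d = X d := by
    intro d
    rw [Finset.sum_mul, Finset.sum_eq_single d]
    · exact hi d
    · intro c _ hcd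
      exact ho c d hcd
    · intro hd
      exact absurd (Finset.mem_univ _) hd
  have hs : (∑ c, X c) * (∑ c, X c) = ∑ c, X c := by
    rw [Finset.mul_sum]
    exact Finset.sum_congr rfl fun d _ => hX d
  have hsum : ∑ c, X c = 1 := by
    have h1 := ht (1 - ∑ c, X c) (by linear_combination hs)
      (fun c => by rw [sub_mul, one_mul, hX, sub_self])
    exact (sub_eq_zero.1 h1).symm
  have hy : ∀ d, X d * (∑ c, X c * Y c) = X d * Y d := by
    intro d
    rw [Finset.mul_sum, Finset.sum_eq_single d]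
    · rw [← mul_assoc, hi]
    · intro c _ hcd
      rw [← mul_assoc, ho d c (Ne.symm hcd), zero_mul]
    · intro hd
      exact absurd (Finset.mem_univ _) hd
  have h1 : ∀ c, X c * ev c (∑ c, X c * Y c) = X c := fun c =>
    (loc h (hi c) (hy c) c).trans (hY c)
  have h2 : ∀ c d, c ≠ d → X d * ev c (∑ c, X c * Y c) = 0 := by
    intro c d hcd
    have o := h.orth c d (∑ c, X c * Y c) hcd
    have k := h1 d
    linear_combination (-(ev c (∑ c, X c * Y c))) * k + X d * o
  refine ⟨∑ c, X c * Y c, fun c => ?_⟩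
  calc ev c (∑ c, X c * Y c) = (∑ d, X d) * ev c (∑ c, X c * Y c) := by rw [hsum, one_mul]
    _ = ∑ d, X d * ev c (∑ c, X c * Y c) := Finset.sum_mul _ _ _
    _ = X c * ev c (∑ c, X c * Y c) :=
        Finset.sum_eq_single c (fun d _ hd => h2 c d (Ne.symm hd))
          (fun hd => absurd (Finset.mem_univ _) hd)
    _ = X c := h1 c

/-- the measure -/
def muQ (ev : C → R → R) (b : BB R) : Set (C) := {c | ¬ Q ev c b.1}

theorem am_muQ (h : EvG plus times zer one ev) : @AM (Set (C)) (unionM _) (BB R) _ (muQ ev) := by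
  refine @AM.mk _ (unionM _) (BB R) _ _ ?_ ?_
  · show muQ ev (⊥ : BB R) = (∅ : Set (C))
    ext c
    simp only [muQ, Set.mem_ofPred_eq, Set.mem_empty_iff_false, iff_false, not_not]
    exact ⟨0, by rw [bot_val, zero_mul]⟩
  · intro a b hab
    show muQ ev (a ⊔ b) = muQ ev a ∪ muQ ev b
    have hab0 : a.1 * b.1 = 0 := (inf_bot_iff a b).1 (disjoint_iff.1 hab)
    have hs : (a ⊔ b).1 = a.1 + b.1 := by
      show a.1 + b.1 - a.1 * b.1 = _
      rw [hab0, sub_zero]
    have ha : a.1 * a.1 = a.1 := a.2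
    have hb : b.1 * b.1 = b.1 := b.2
    have key : ∀ c, Q ev c (a ⊔ b).1 ↔ Q ev c a.1 ∧ Q ev c b.1 := by
      intro c
      unfold Q
      rw [hs]
      constructor
      · rintro ⟨x, hx⟩
        refine ⟨⟨x, ?_⟩, ⟨x, ?_⟩⟩
        · linear_combination a.1 * hx - (ev c x - 1) * ha - (ev c x - 1) * hab0
        · linear_combination b.1 * hx - (ev c x - 1) * hb - (ev c x - 1) * hab0
      · rintro ⟨⟨x, hx⟩, ⟨y, hy⟩⟩
        refine ⟨a.1 * x + (1 - a.1) * y, ?_⟩
        rw [h.glue a.1 x y c ha]
        linear_combination hx + hy + (ev c x - ev c y) * ha + (ev c x - ev c y) * hab0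
    ext c
    simp only [muQ, Set.mem_ofPred_eq, Set.mem_union, key]
    tauto

/-- the tuples which represent elements of the ring -/
def DD (ev : C → R → R) (X : C → BB R) : Prop :=
  (∀ c d, c ≠ d → X c ⊓ X d = ⊥) ∧ (∀ z : BB R, (∀ c, z ⊓ X c = ⊥) → z = ⊥) ∧
    ∀ c, Q ev c (X c).1

open Classical in
/-- the element of the ring given by a tuple -/
noncomputable def gg (ev : C → R → R) (X : C → BB R) : R :=
  if h : ∃ y, ∀ c, ev c y = (X c).1 then h.choose else 0

theorem gg_spec (h : EvG plus times zer one ev) [Finite (C)] {X : C → BB R} (hX : DD ev X)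
    (c : C) : ev c (gg ev X) = (X c).1 := by
  have h1 : ∃ y, ∀ c, ev c y = (X c).1 :=
    exist_g h (fun c => (X c).1) (fun c => (X c).2)
      (fun c d hcd => (inf_bot_iff _ _).1 (hX.1 c d hcd))
      (fun b hb hbc => by
        have := hX.2.1 ⟨b, hb⟩ fun c => (inf_bot_iff _ _).2 (hbc c)
        exact congrArg Subtype.val this) hX.2.2
  unfold gg
  rw [dif_pos h1]
  exact h1.choose_spec c

theorem gg_onto (h : EvG plus times zer one ev) [Finite (C)] (y : R) :
    DD ev (fun c => (⟨ev c y, h.idem c y⟩ : BB R)) ∧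
      gg ev (fun c => (⟨ev c y, h.idem c y⟩ : BB R)) = y := by
  have hD : DD ev (fun c => (⟨ev c y, h.idem c y⟩ : BB R)) := by
    refine ⟨fun c d hcd => (inf_bot_iff _ _).2 (h.orth c d y hcd), fun z hz => ?_,
      fun c => ⟨y, h.idem c y⟩⟩
    exact Subtype.ext (h.total y z.1 fun c => (inf_bot_iff _ _).1 (hz c))
  exact ⟨hD, h.inj _ _ fun c => gg_spec h hD c⟩

theorem gg_inj (h : EvG plus times zer one ev) [Finite (C)] {X Y : C → BB R} (hX : DD ev X)
    (hY : DD ev Y) : gg ev X = gg ev Y ↔ ∀ c, X c = Y c := by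
  constructor
  · intro e c
    apply Subtype.ext
    rw [← gg_spec h hX c, ← gg_spec h hY c, e]
  · intro e
    rw [funext e]

theorem gg_mul (h : EvG plus times zer one ev) [Finite (C)] {X Y Z : C → BB R} (hX : DD ev X)
    (hY : DD ev Y) (hZ : DD ev Z) : gg ev X * gg ev Y = gg ev Z ↔
      ∀ c d e : C, times c d e → X c ⊓ Y d ≤ Z e := by
  rw [mul_iff h]
  simp only [gg_spec h hX, gg_spec h hY, gg_spec h hZ, le_val, inf_val]

theorem gg_add (h : EvG plus times zer one ev) [Finite (C)] {X Y Z : C → BB R} (hX : DD ev X)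
    (hY : DD ev Y) (hZ : DD ev Z) : gg ev X + gg ev Y = gg ev Z ↔
      ∀ c d e : C, plus c d e → X c ⊓ Y d ≤ Z e := by
  rw [add_iff' h]
  simp only [gg_spec h hX, gg_spec h hY, gg_spec h hZ, le_val, inf_val]

theorem gg_idem (h : EvG plus times zer one ev) [Finite C] {X : C → BB R} (hX : DD ev X) :
    gg ev X * gg ev X = gg ev X ↔ ∀ c : C, c ∉ zer → c ∉ one → X c = ⊥ := by
  rw [h.idp]
  simp only [gg_spec h hX, Subtype.ext_iff, bot_val]

theorem infinite_BB (h : EvG plus times zer one ev) [Finite (C)] [Infinite R] : Infinite (BB R) := by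
  rw [← not_finite_iff_infinite]
  intro hfin
  have hinj : Function.Injective (fun (x : R) (c : C) => (⟨ev c x, h.idem c x⟩ : BB R)) := by
    intro x y hxy
    apply h.inj
    intro c
    exact congrArg Subtype.val (congrFun hxy c)
  have : Finite R := Finite.of_injective _ hinj
  exact not_finite R

end Alg

section DefB

variable {C : Type} {plus times : C → C → C → Prop} {zer one : Set C} {R : Type}
  [iR : CommRing R] {ev : C → R → R}

theorem b_le (P : S_DPC) {α : Type} (i j : α) :
    DefP (str (· ≤ ·) (muQ ev)) (fun v : α → BB R => v i ≤ v j) :=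
  @drel (LM (Set (C))) (BB R) (str (· ≤ ·) (muQ ev)) P α 2 Sym.le ![i, j]

theorem b_val (P : S_DPC) {α : Type} (i : α) (s : Set (C)) :
    DefP (str (· ≤ ·) (muQ ev)) (fun v : α → BB R => muQ ev (v i) = s) :=
  @drel (LM (Set (C))) (BB R) (str (· ≤ ·) (muQ ev)) P α 1 (Sym.val s) ![i]

theorem b_disj (P : S_DPC) {α : Type} (i j : α) :
    DefP (str (· ≤ ·) (muQ ev)) (fun v : α → BB R => v i ⊓ v j = ⊥) := by
  refine dcongr (dall1 (s := fun (z : BB R) (v : α → BB R) => z ≤ v i → z ≤ v j → z = ⊥) P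
    (dimp P (b_le P (Sum.inr 0) (Sum.inl i)) (dimp P (b_le P (Sum.inr 0) (Sum.inl j))
      (dpar P (Sum.inr 0) ⊥)))) fun v => ?_
  constructor
  · intro H
    exact H _ inf_le_left inf_le_right
  · intro e z h1 h2
    exact le_bot_iff.1 (e ▸ le_inf h1 h2)

theorem b_le3 (P : S_DPC) {α : Type} (i j k : α) :
    DefP (str (· ≤ ·) (muQ ev)) (fun v : α → BB R => v i ⊓ v j ≤ v k) := by
  refine dcongr (dall1 (s := fun (z : BB R) (v : α → BB R) => z ≤ v i → z ≤ v j → z ≤ v k) P
    (dimp P (b_le P (Sum.inr 0) (Sum.inl i)) (dimp P (b_le P (Sum.inr 0) (Sum.inl j))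
      (b_le P (Sum.inr 0) (Sum.inl k))))) fun v => ?_
  constructor
  · intro H
    exact H _ inf_le_left inf_le_right
  · intro e z h1 h2
    exact (le_inf h1 h2).trans e

theorem b_Q (P : S_DPC) [Finite (C)] {α : Type} (c : C) (i : α) :
    DefP (str (· ≤ ·) (muQ ev)) (fun v : α → BB R => Q ev c (v i).1) := by
  refine dcongr (dfin (ι := {s : Set (C) // c ∈ s}) P
    (s := fun s (v : α → BB R) => ¬ muQ ev (v i) = s.1)
    (fun s => dnot P (b_val P i s.1))) fun v => ?_
  constructor
  · intro H
    by_contra hc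
    exact H ⟨muQ ev (v i), hc⟩ rfl
  · intro hq s hs
    have h1 : c ∈ muQ ev (v i) := hs ▸ s.2
    exact h1 hq

theorem b_DD (P : S_DPC) [Finite (C)] {α : Type} (k : C → α) :
    DefP (str (· ≤ ·) (muQ ev)) (fun v : α → BB R => DD ev (fun c => v (k c))) :=
  dand P (dfin P fun c => dfin P fun d => dimp P (dconst P (c ≠ d)) (b_disj P (k c) (k d)))
    (dand P (dall1 (s := fun (z : BB R) (v : α → BB R) => (∀ c, z ⊓ v (k c) = ⊥) → z = ⊥) P
      (dimp P (dfin P fun c => b_disj P (Sum.inr 0) (Sum.inl (k c)))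
        (dpar P (Sum.inr 0) ⊥))) (dfin P fun c => b_Q P c (k c)))

end DefB

section Main

variable {C : Type} {plus times : C → C → C → Prop} {zer one : Set C} {R : Type}
  [iR : CommRing R] {ev : C → R → R}

/-- The value of the measure. -/
theorem r_mu (P : S_DPC) (h : EvG plus times zer one ev) [Finite C] (s : Set C) :
    DefP (strR iR) (fun x : Fin 1 → R => x 0 * x 0 = x 0 ∧ muQ ev (ff x) = s) := by
  refine dcongr (dand P (r_mul P (0 : Fin 1) 0 0) (dfin P fun c : C =>
    dand P (dimp P (h.ideal c) (dconst P (c ∉ s)))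
      (dimp P (dconst P (c ∉ s)) (h.ideal c)))) fun x => ?_
  refine and_congr_right fun hx => ?_
  have e : (ff x).1 = x 0 := ff_val hx
  have hQ : ∀ c, (x 0 * x 0 = x 0 ∧ ∃ y, x 0 * ev c y = x 0) ↔ Q ev c (ff x).1 := by
    intro c
    rw [e]
    exact ⟨fun H => H.2, fun H => ⟨hx, H⟩⟩
  simp only [hQ]
  constructor
  · intro H
    ext c
    have h1 := H c
    constructor
    · intro h2
      by_contra h3
      exact h2 (h1.2 h3)
    · intro h2 h3
      exact h1.1 h3 h2
  · rintro rfl c
    constructor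
    · intro h1 h2
      exact h2 h1
    · intro h1
      by_contra h2
      exact h1 h2

/-- The composition. -/
theorem b_comp (P : S_DPC) (h : EvG plus times zer one ev) [Finite C] {α : Type} (k : C → α)
    (j : α) : DefP (str (· ≤ ·) (muQ ev)) (fun v : α → BB R => DD ev (fun c => v (k c)) ∧
      gg ev (fun c => v (k c)) * gg ev (fun c => v (k c)) = gg ev (fun c => v (k c)) ∧
      ff (fun _ => gg ev (fun c => v (k c))) = v j) := by
  have hz : DefP (str (· ≤ ·) (muQ ev)) (fun v : α → BB R =>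
      ∀ z : BB R, ((∀ c : C, c ∈ one → v (k c) ≤ z) → v j ≤ z) ∧
        (v j ≤ z → ∀ c : C, c ∈ one → v (k c) ≤ z)) :=
    dall1 (s := fun (z : BB R) (v : α → BB R) => ((∀ c : C, c ∈ one → v (k c) ≤ z) → v j ≤ z) ∧
        (v j ≤ z → ∀ c : C, c ∈ one → v (k c) ≤ z)) P
      (dand P (dimp P (dfin P fun c : C => dimp P (dconst P (c ∈ one))
          (b_le P (Sum.inl (k c)) (Sum.inr 0))) (b_le P (Sum.inl j) (Sum.inr 0)))
        (dimp P (b_le P (Sum.inl j) (Sum.inr 0)) (dfin P fun c : C => dimp P (dconst P (c ∈ one))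
          (b_le P (Sum.inl (k c)) (Sum.inr 0)))))
  refine dcongr (dand P (b_DD P k) (dand P (dfin P fun c : C =>
    dimp P (dconst P (c ∉ zer)) (dimp P (dconst P (c ∉ one)) (dpar P (k c) ⊥)))
    hz)) fun v => ?_
  refine and_congr_right fun hD => ?_
  rw [gg_idem h hD]
  refine and_congr_right fun hi => ?_
  have hi' := (gg_idem h hD).2 hi
  have e1 : (ff (fun _ => gg ev (fun c => v (k c)))).1 = gg ev (fun c => v (k c)) :=
    ff_val (x := fun _ => gg ev (fun c => v (k c))) hi'
  have e2 : ∀ z : BB R, (∀ c : C, c ∈ one → v (k c) ≤ z) ↔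
      ff (fun _ => gg ev (fun c => v (k c))) ≤ z := by
    intro z
    rw [le_val, e1, ← h.val _ z.1 hi']
    refine forall_congr' fun c => forall_congr' fun _ => ?_
    rw [le_val, gg_spec h hD]
  constructor
  · intro H
    apply le_antisymm
    · exact (e2 _).1 ((H _).2 le_rfl)
    · exact (H _).1 ((e2 _).2 le_rfl)
  · intro H z
    rw [e2, H]
    exact ⟨id, id⟩

theorem big (P : S_DPC) (h : EvG plus times zer one ev) [Finite (C)] :
    BiG (strR iR) (muQ ev) := by
  obtain ⟨r, ⟨eqv⟩⟩ : ∃ r, Nonempty (C ≃ Fin r) :=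
    ⟨Nat.card (C), ⟨Finite.equivFin (C)⟩⟩
  refine ⟨1, r, fun x => DD ev (fun c => x (eqv c)), fun x => gg ev (fun c => x (eqv c)),
    fun x => x 0 * x 0 = x 0, ff, b_DD P eqv, ?_, ?_, ?_, ?_, r_mul P 0 0 0, ?_, ?_,
    fun s => r_mu P h s, ?_⟩
  · intro s
    refine ⟨fun j => ⟨ev (eqv.symm j) s, h.idem _ s⟩, ?_⟩
    have e : (fun c => (⟨ev (eqv.symm (eqv c)) s, h.idem _ s⟩ : BB R)) =
        fun c => (⟨ev c s, h.idem c s⟩ : BB R) := by
      funext c
      apply Subtype.ext
      show ev (eqv.symm (eqv c)) s = ev c s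
      rw [Equiv.symm_apply_apply]
    show DD ev (fun c => (⟨ev (eqv.symm (eqv c)) s, h.idem _ s⟩ : BB R)) ∧
      gg ev (fun c => (⟨ev (eqv.symm (eqv c)) s, h.idem _ s⟩ : BB R)) = s
    rw [e]
    exact gg_onto h s
  · refine dcongr (dand P (dfin P fun i : Fin 2 => b_DD P fun c => (i, eqv c))
      (dfin P fun c : C => deq P ((0 : Fin 2), eqv c) (1, eqv c))) fun v => ?_
    exact and_congr_right fun hD => (gg_inj h (hD 0) (hD 1)).symm
  · intro l R
    exact Empty.elim R
  · intro l F
    cases F with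
    | add =>
      refine dcongr (dand P (dfin P fun i : Fin 3 => b_DD P fun c => (i, eqv c))
        (dfin P fun c : C => dfin P fun d : C => dfin P fun e : C =>
          dimp P (dconst P (plus c d e))
            (b_le3 P ((0 : Fin 3), eqv c) (1, eqv d) (2, eqv e)))) fun v => ?_
      exact and_congr_right fun hD => (gg_add h (hD 0) (hD 1) (hD 2)).symm
    | mul =>
      refine dcongr (dand P (dfin P fun i : Fin 3 => b_DD P fun c => (i, eqv c))
        (dfin P fun c : C => dfin P fun d : C => dfin P fun e : C =>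
          dimp P (dconst P (times c d e))
            (b_le3 P ((0 : Fin 3), eqv c) (1, eqv d) (2, eqv e)))) fun v => ?_
      exact and_congr_right fun hD => (gg_mul h (hD 0) (hD 1) (hD 2)).symm
  · intro b
    have hb : b.1 * b.1 = b.1 := b.2
    exact ⟨fun _ => b.1, hb, Subtype.ext (ff_val (x := fun _ => b.1) hb)⟩
  · refine dcongr (dand P (dfin P fun i : Fin 2 => r_mul P (i, (0 : Fin 1)) (i, 0) (i, 0))
      (r_mul P ((0 : Fin 2), (0 : Fin 1)) (1, 0) (0, 0))) fun v => ?_
    refine and_congr_right fun hD => ?_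
    rw [le_val, ff_val (hD 0), ff_val (hD 1)]
  · refine dcongr (b_comp P h (fun c => (Sum.inl ((0 : Fin 1), eqv c) :
      (Fin 1 × Fin r) ⊕ Fin 1)) (Sum.inr 0)) fun v => ?_
    constructor
    · rintro ⟨a1, a2, a3⟩
      refine ⟨fun i => ?_, a2, ?_⟩
      · have hi : i = 0 := Subsingleton.elim _ _
        subst hi
        exact a1
      · rw [← a3]
        congr 1
        funext i
        have hi : i = 0 := Subsingleton.elim _ _
        subst hi
        rfl
    · rintro ⟨a1, a2, a3⟩
      refine ⟨a1 0, a2, ?_⟩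
      rw [← a3]
      congr 1
      funext i
      have hi : i = 0 := Subsingleton.elim _ _
      subst hi
      rfl

end Main

/-- **RNE.** -/
theorem RNE (DPC : S_DPC) (BMD : S_BMD) : S_RNE := by
  intro R C hf plus times zer one ev h
  have h1 := @big C plus times zer one ℕ R ev DPC h hf
  have h2 := @am_muQ C plus times zer one ℕ R ev h
  have h3 : Infinite (@BB ℕ R) := @infinite_BB C plus times zer one ℕ R ev h hf _
  have h4 : Countable (@BB ℕ R) := Subtype.countable
  exact @BMD LR finite_LR (strR R) (Set C) (unionM _) _ (@BB ℕ R) _ h4 h3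
    (@muQ C ℕ R ev) h2 h1

end Pool.Agent.N941.VB
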